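import Pool.Agent.Lib_helper21.RB.Main2
import Pool.Agent.Lib_helper21.AV.W.RK
import Pool.Agent.Lib_helper21.AV.GB
import Pool.Agent.Lib_helper21.AVK.W.AG

/-!
# MP_7dc427_nt: representations as a difference of two fourth powers, moments

Bounds for the number of solutions of `x ^ 4 - y ^ 4 = r` which depend on the squarefree part `D`
of `r` only and have bounded moments over `D`.
-/

set_option autoImplicit false

namespace Pool.Agent.Results.MP_7dc427_nt.AllMoments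

open Pool.Agent.RB Pool.Agent.AV

/-- The pairs of positive integers with `x ^ 4 - y ^ 4 = r`. -/
def sol (r : ℕ) : Set (ℕ × ℕ) := {p | 0 < p.1 ∧ 0 < p.2 ∧ ((p.1 : ℤ) ^ 4 - (p.2 : ℤ) ^ 4 = r)}

/-- The pairs of coprime positive integers with `x ^ 4 - y ^ 4 = r`. -/
def prim (r : ℕ) : Set (ℕ × ℕ) := {p | p ∈ sol r ∧ Nat.Coprime p.1 p.2}

/-- `f` is nonnegative and all its moments over the squarefree numbers are bounded. -/
def Moments (f : ℕ → ℝ) : Prop := (∀ D, 0 ≤ f D) ∧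
  ∀ K : ℕ, ∃ C : ℝ, ∀ X : ℕ, ∑ D ∈ (Finset.Icc 1 X).filter Squarefree, f D ^ K ≤ C * X

/-- Part 1: for squarefree `D` the number of coprime solutions of `x ^ 4 - y ^ 4 = D * w ^ 2` is at
most `f D` for every `w`, where `f D ≤ C * 3 ^ ω(D)` and all moments of `f` are bounded.

Part 2: every positive integer is `r = k * F ^ 4`, `k = D * E ^ 2` with `D`, `E` squarefree; `k` is
its fourth-power-free part and `D` its squarefree part. For every `δ > 0` there is a function `g`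
all of whose moments are bounded, `g D ≤ C ^ (ω(D) + 1)`, such that the number of the solutions of
`x ^ 4 - y ^ 4 = r` with `gcd ^ 4 ≤ r ^ (1 - δ)` or `r / gcd ^ 4 ≤ k ^ (1 / δ)` is at most `g D`,
and the number of all solutions is at most `g D` if `k ≥ r ^ δ`. -/
theorem result :
    (∃ f : ℕ → ℝ, Moments f ∧
      (∃ C : ℝ, ∀ D : ℕ, Squarefree D → f D ≤ C * 3 ^ D.primeFactors.card) ∧
      ∀ D w : ℕ, Squarefree D → 0 < w → (prim (D * w ^ 2)).Finite ∧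
        ((prim (D * w ^ 2)).ncard : ℝ) ≤ f D) ∧
    (∀ δ : ℝ, 0 < δ → δ ≤ 1 → ∃ g : ℕ → ℝ, Moments g ∧
      (∃ C : ℝ, ∀ D : ℕ, Squarefree D → g D ≤ C ^ (D.primeFactors.card + 1)) ∧
      ∀ D E F k r : ℕ, Squarefree D → Squarefree E → 0 < F → k = D * E ^ 2 → r = k * F ^ 4 →
        (sol r).Finite ∧
        (({p | p ∈ sol r ∧ (((Nat.gcd p.1 p.2 : ℕ) : ℝ) ^ 4 ≤ (r : ℝ) ^ (1 - δ) ∨
          (r : ℝ) / ((Nat.gcd p.1 p.2 : ℕ) : ℝ) ^ 4 ≤ (k : ℝ) ^ (1 / δ))} :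
            Set (ℕ × ℕ)).ncard : ℝ) ≤ g D ∧
        ((r : ℝ) ^ δ ≤ k → ((sol r).ncard : ℝ) ≤ g D)) := by
  have hsol : ∀ (r : ℕ) (p : ℕ × ℕ), p ∈ sol r → 0 < p.1 ∧ 0 < p.2 ∧ p.1 ^ 4 = p.2 ^ 4 + r := by
    rintro r p ⟨h1, h2, h3⟩
    refine ⟨h1, h2, ?_⟩
    have : (p.1 : ℤ) ^ 4 = (p.2 : ℤ) ^ 4 + r := by linarith
    exact_mod_cast this
  have hfin : ∀ r : ℕ, 0 < r → (sol r).Finite := fun r hr =>
    (finite_of_subset hr (fun p hp => (hsol r p hp).2.2)).1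
  have hprim : ∀ r : ℕ, 0 < r → (prim r).Finite := fun r hr =>
    (hfin r hr).subset fun p hp => hp.1
  have hps : ∀ r : ℕ, prim r ⊆ primSol r := fun r p hp =>
    ⟨(hsol r p hp.1).1, (hsol r p hp.1).2.1, hp.2, (hsol r p hp.1).2.2⟩
  have hpf : ∀ r : ℕ, 0 < r → (primSol r).Finite := fun r hr =>
    (finite_of_subset hr (fun p hp => hp.2.2.2)).1
  have hG1 : ∀ D : ℕ, 1 ≤ GG D := fun D => by
    have h : 0 ≤ ∑ x ∈ F4, ∑ y ∈ F4, ∑ z ∈ F4, ((NN (kap (ep D) x y z) (op D)).card : ℝ) := by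
      positivity
    unfold GG
    linarith
  have hG0 : ∀ D : ℕ, 0 ≤ GG D := fun D => by linarith [hG1 D]
  obtain ⟨C₀, hC₀⟩ := coprime_bound'
  have hmom : ∀ (A : ℝ) (L : ℕ), 0 ≤ A → ∀ K : ℕ, ∃ C : ℝ, ∀ X : ℕ,
      ∑ D ∈ (Finset.Icc 1 X).filter Squarefree, (A * GG D ^ L) ^ K ≤ C * X := by
    intro A L hA K
    obtain ⟨C, hC0, hC⟩ := Pool.Agent.AVK.moments (L * K)
    refine ⟨A ^ K * C, fun X => ?_⟩
    rcases Nat.eq_zero_or_pos X with h | h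
    · subst h; simp
    · have h1 : ∀ D : ℕ, (A * GG D ^ L) ^ K = A ^ K * GG D ^ (L * K) := by
        intro D
        rw [mul_pow, pow_mul]
      rw [Finset.sum_congr rfl fun D _ => h1 D, ← Finset.mul_sum, mul_assoc]
      exact mul_le_mul_of_nonneg_left (hC X h) (by positivity)
  refine ⟨⟨fun D => |C₀| * GG D ^ (3 / 4 : ℝ), ⟨fun D => by
    have := hG0 D
    positivity, fun K => ?_⟩, ⟨|C₀| * 68, fun D hD => ?_⟩, fun D w hD hw => ?_⟩, fun δ hδ hδ1 => ?_⟩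
  · -- moments of `f`
    obtain ⟨C, hC⟩ := hmom |C₀| 1 (abs_nonneg _) K
    refine ⟨C, fun X => le_trans (Finset.sum_le_sum fun D _ => ?_) (hC X)⟩
    have h0 := hG0 D
    refine pow_le_pow_left₀ (by positivity) ?_ K
    refine mul_le_mul_of_nonneg_left ?_ (abs_nonneg _)
    rw [pow_one]
    calc GG D ^ (3 / 4 : ℝ) ≤ GG D ^ (1 : ℝ) :=
          Real.rpow_le_rpow_of_exponent_le (hG1 D) (by norm_num)
      _ = GG D := Real.rpow_one _
  · -- the bound by the number of primes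
    have h1 : GG D ^ (3 / 4 : ℝ) ≤ 68 * 3 ^ D.primeFactors.card := by
      have h2 : GG D ^ (3 / 4 : ℝ) ≤ (68 * 4 ^ D.primeFactors.card) ^ (3 / 4 : ℝ) :=
        Real.rpow_le_rpow (hG0 D) (GB_bound hD) (by norm_num)
      have h3 : (68 * (4 : ℝ) ^ D.primeFactors.card) ^ (3 / 4 : ℝ) =
          68 ^ (3 / 4 : ℝ) * ((4 : ℝ) ^ (3 / 4 : ℝ)) ^ D.primeFactors.card := by
        rw [Real.mul_rpow (by norm_num) (by positivity), ← Real.rpow_natCast, ← Real.rpow_natCast,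
          ← Real.rpow_mul (by norm_num), ← Real.rpow_mul (by norm_num), mul_comm (3 / 4 : ℝ)]
      have h4 : (68 : ℝ) ^ (3 / 4 : ℝ) ≤ 68 := by
        calc (68 : ℝ) ^ (3 / 4 : ℝ) ≤ (68 : ℝ) ^ (1 : ℝ) :=
              Real.rpow_le_rpow_of_exponent_le (by norm_num) (by norm_num)
          _ = 68 := Real.rpow_one _
      have h5 : (4 : ℝ) ^ (3 / 4 : ℝ) ≤ 3 := by
        have h6 : ((4 : ℝ) ^ (3 / 4 : ℝ)) ^ 4 ≤ 3 ^ 4 := by
          rw [← Real.rpow_natCast, ← Real.rpow_mul (by norm_num)]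
          have : (3 / 4 : ℝ) * ((4 : ℕ) : ℝ) = ((3 : ℕ) : ℝ) := by norm_num
          rw [this, Real.rpow_natCast]
          norm_num
        exact le_of_pow_le_pow_left₀ (by norm_num) (by norm_num) h6
      rw [h3] at h2
      refine h2.trans ?_
      gcongr
    calc |C₀| * GG D ^ (3 / 4 : ℝ) ≤ |C₀| * (68 * 3 ^ D.primeFactors.card) := by gcongr
      _ = _ := by ring
  · -- the coprime solutions
    have hD0 : 0 < D := Nat.pos_of_ne_zero hD.ne_zero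
    have hr0 : 0 < D * w ^ 2 := by positivity
    refine ⟨hprim _ hr0, ?_⟩
    obtain ⟨n, P, hP, hn⟩ := hC₀ D w hD0 hw
    have h2 := rank_bound hD n P hP
    have h1 : ((prim (D * w ^ 2)).ncard : ℝ) ≤ ((primSol (D * w ^ 2)).ncard : ℝ) := by
      exact_mod_cast Set.ncard_le_ncard (hps _) (hpf _ hr0)
    have h3 : ((5 / 3 : ℝ)) ^ n ≤ GG D ^ (3 / 4 : ℝ) := by
      have h4 : ((5 / 3 : ℝ)) ^ n = (((5 / 3 : ℝ) ^ n) ^ (4 / 3 : ℝ)) ^ (3 / 4 : ℝ) := by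
        rw [← Real.rpow_mul (by positivity)]
        norm_num
      rw [h4]
      refine Real.rpow_le_rpow (by positivity) ?_ (by norm_num)
      refine le_trans ?_ h2
      have h5 : ((5 / 3 : ℝ) ^ n) ^ (4 / 3 : ℝ) = ((5 / 3 : ℝ) ^ (4 / 3 : ℝ)) ^ n := by
        rw [← Real.rpow_natCast, ← Real.rpow_mul (by norm_num), mul_comm,
          Real.rpow_mul (by norm_num), Real.rpow_natCast]
      rw [h5]
      refine pow_le_pow_left₀ (by positivity) ?_ n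
      have h6 : ((5 / 3 : ℝ) ^ (4 / 3 : ℝ)) ^ 3 ≤ 2 ^ 3 := by
        rw [← Real.rpow_natCast, ← Real.rpow_mul (by norm_num)]
        have : (4 / 3 : ℝ) * ((3 : ℕ) : ℝ) = ((4 : ℕ) : ℝ) := by norm_num
        rw [this, Real.rpow_natCast]
        norm_num
      exact le_of_pow_le_pow_left₀ (by norm_num) (by norm_num) h6
    calc ((prim (D * w ^ 2)).ncard : ℝ) ≤ C₀ * (5 / 3) ^ n := h1.trans hn
      _ ≤ |C₀| * (5 / 3) ^ n := by gcongr; exact le_abs_self _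
      _ ≤ |C₀| * GG D ^ (3 / 4 : ℝ) := by gcongr
  -- part 2
  obtain ⟨C₂, h₁⟩ := big_bound δ hδ
  obtain ⟨C₃, h₂⟩ := small_bound (1 / δ) (by rw [le_div_iff₀ hδ]; linarith)
  set A : ℝ := |C₂| + |C₃| + 1 with hA
  have a2 := abs_nonneg C₂
  have a3 := abs_nonneg C₃
  have hA1 : 1 ≤ A := by linarith
  obtain ⟨L, hL⟩ := pow_unbounded_of_one_lt A (by norm_num : (1 : ℝ) < 2)
  have hpow : ∀ (C : ℝ) (n D : ℕ), |C| ≤ A → (2 : ℝ) ^ n ≤ GG D → C ^ (n + 1) ≤ A * GG D ^ L := by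
    intro C n D hC hn
    calc C ^ (n + 1) ≤ |C ^ (n + 1)| := le_abs_self _
      _ = |C| ^ (n + 1) := abs_pow _ _
      _ ≤ A ^ (n + 1) := pow_le_pow_left₀ (abs_nonneg _) hC _
      _ = A * A ^ n := by rw [pow_succ]; ring
      _ ≤ A * (2 ^ L) ^ n := by
          refine mul_le_mul_of_nonneg_left (pow_le_pow_left₀ (by linarith) hL.le n) (by linarith)
      _ = A * (2 ^ n) ^ L := by rw [← pow_mul, ← pow_mul, mul_comm L n]
      _ ≤ A * GG D ^ L := by gcongr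
  refine ⟨fun D => 2 * A * GG D ^ L, ⟨fun D => by
    have := hG0 D
    positivity, fun K => hmom (2 * A) L (by linarith) K⟩, ⟨2 * A * 68 ^ L * 4 ^ L, fun D hD => ?_⟩,
    fun D E F k r hD hE hF hk hr => ?_⟩
  · have h1 : GG D ≤ 68 * 4 ^ D.primeFactors.card := GB_bound hD
    have h2 : GG D ^ L ≤ (68 * 4 ^ D.primeFactors.card) ^ L := pow_le_pow_left₀ (hG0 D) h1 L
    have h3 : (1 : ℝ) ≤ 2 * A * 68 ^ L := by
      have : (1 : ℝ) ≤ 68 ^ L := one_le_pow₀ (by norm_num)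
      nlinarith
    have h4 : (1 : ℝ) ≤ 4 ^ L := one_le_pow₀ (by norm_num)
    calc 2 * A * GG D ^ L ≤ 2 * A * (68 * 4 ^ D.primeFactors.card) ^ L := by gcongr
      _ = 2 * A * 68 ^ L * (4 ^ L) ^ D.primeFactors.card := by
          rw [mul_pow, ← pow_mul, ← pow_mul, mul_comm D.primeFactors.card L]
          ring
      _ ≤ (2 * A * 68 ^ L) ^ (D.primeFactors.card + 1) * (4 ^ L) ^ (D.primeFactors.card + 1) := by
          refine mul_le_mul ?_ ?_ (by positivity) (by positivity)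
          · exact le_self_pow₀ h3 (by omega)
          · exact pow_le_pow_right₀ h4 (by omega)
      _ = _ := by rw [← mul_pow]
  have hD0 : 0 < D := Nat.pos_of_ne_zero hD.ne_zero
  have hE0 : 0 < E := Nat.pos_of_ne_zero hE.ne_zero
  have hrw : r = D * (E * F ^ 2) ^ 2 := by rw [hr, hk]; ring
  have hr0 : 0 < r := by rw [hrw]; positivity
  have key : (({p | p ∈ sol r ∧ (((Nat.gcd p.1 p.2 : ℕ) : ℝ) ^ 4 ≤ (r : ℝ) ^ (1 - δ) ∨
      (r : ℝ) / ((Nat.gcd p.1 p.2 : ℕ) : ℝ) ^ 4 ≤ (k : ℝ) ^ (1 / δ))} :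
      Set (ℕ × ℕ)).ncard : ℝ) ≤ 2 * A * GG D ^ L := by
    obtain ⟨n₁, P₁, i₁, b₁⟩ := h₁ D (E * F ^ 2) hD (by positivity)
    obtain ⟨n₂, P₂, i₂, b₂⟩ := h₂ D E F hD hE hF
    rw [← hrw] at b₁
    rw [← hk, ← hr] at b₂
    have f1 : (bigSol δ r).Finite := (finite_of_subset hr0 (fun p hp => hp.2.2.1)).1
    have f2 : (smallSol (1 / δ) k r).Finite := (finite_of_subset hr0 (fun p hp => hp.2.2.1)).1
    have hsub : {p | p ∈ sol r ∧ (((Nat.gcd p.1 p.2 : ℕ) : ℝ) ^ 4 ≤ (r : ℝ) ^ (1 - δ) ∨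
        (r : ℝ) / ((Nat.gcd p.1 p.2 : ℕ) : ℝ) ^ 4 ≤ (k : ℝ) ^ (1 / δ))} ⊆
        bigSol δ r ∪ smallSol (1 / δ) k r := by
      rintro p ⟨hp, h | h⟩
      · obtain ⟨h1, h2, h3⟩ := hsol r p hp
        exact Or.inl ⟨h1, h2, h3, h⟩
      · obtain ⟨h1, h2, h3⟩ := hsol r p hp
        refine Or.inr ⟨h1, h2, h3, ?_⟩
        have hg : (0 : ℝ) < ((Nat.gcd p.1 p.2 : ℕ) : ℝ) ^ 4 := by
          have : 0 < Nat.gcd p.1 p.2 := Nat.gcd_pos_of_pos_left _ h1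
          positivity
        rwa [div_le_iff₀ hg] at h
    have hcard := (Set.ncard_le_ncard hsub (f1.union f2)).trans (Set.ncard_union_le _ _)
    calc _ ≤ (((bigSol δ r).ncard + (smallSol (1 / δ) k r).ncard : ℕ) : ℝ) := by
          exact_mod_cast hcard
      _ ≤ C₂ ^ (n₁ + 1) + C₃ ^ (n₂ + 1) := by push_cast; exact add_le_add b₁ b₂
      _ ≤ A * GG D ^ L + A * GG D ^ L :=
          add_le_add (hpow _ _ _ (by linarith) (rank_bound hD n₁ P₁ i₁))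
            (hpow _ _ _ (by linarith) (rank_bound hD n₂ P₂ i₂))
      _ = _ := by ring
  refine ⟨hfin r hr0, key, fun hkr => ?_⟩
  have hall : {p | p ∈ sol r ∧ (((Nat.gcd p.1 p.2 : ℕ) : ℝ) ^ 4 ≤ (r : ℝ) ^ (1 - δ) ∨
      (r : ℝ) / ((Nat.gcd p.1 p.2 : ℕ) : ℝ) ^ 4 ≤ (k : ℝ) ^ (1 / δ))} = sol r := by
    apply Set.Subset.antisymm (fun p hp => hp.1)
    intro p hp
    refine ⟨hp, Or.inr ?_⟩
    have hg : (1 : ℝ) ≤ ((Nat.gcd p.1 p.2 : ℕ) : ℝ) ^ 4 := by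
      have : 0 < Nat.gcd p.1 p.2 := Nat.gcd_pos_of_pos_left _ hp.1
      apply one_le_pow₀
      exact_mod_cast this
    calc (r : ℝ) / ((Nat.gcd p.1 p.2 : ℕ) : ℝ) ^ 4 ≤ r := div_le_self (Nat.cast_nonneg _) hg
      _ = ((r : ℝ) ^ δ) ^ (1 / δ) := by
          rw [← Real.rpow_mul (Nat.cast_nonneg _), mul_one_div_cancel hδ.ne', Real.rpow_one]
      _ ≤ (k : ℝ) ^ (1 / δ) :=
          Real.rpow_le_rpow (by positivity) hkr (by positivity)
  rwa [hall] at key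

end Pool.Agent.Results.MP_7dc427_nt.AllMoments
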