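import Pool.Agent.Lib_helper21.RB.Main2

/-!
# MP_7dc427_nt: coprime representations as a difference of two fourth powers

A bound for the number of coprime solutions of `x ^ 4 - y ^ 4 = r` in terms of the rank of the
elliptic curve `Y ^ 2 = X ^ 3 - D ^ 2 * X`, `r = D * w ^ 2`.
-/

set_option autoImplicit false

namespace Pool.Agent.Results.MP_7dc427_nt.CoprimeRank

open Pool.Agent.RB

/-- The curve `Y ^ 2 = X ^ 3 - D ^ 2 * X` over the rational numbers. -/
noncomputable def curve (D : ℕ) : WeierstrassCurve ℚ := ⟨0, 0, 0, -(D : ℚ) ^ 2, 0⟩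

/-- The pairs of coprime positive integers with `x ^ 4 - y ^ 4 = r`. -/
def sol (r : ℕ) : Set (ℕ × ℕ) :=
  {p | 0 < p.1 ∧ 0 < p.2 ∧ Nat.Coprime p.1 p.2 ∧ ((p.1 : ℤ) ^ 4 - (p.2 : ℤ) ^ 4 = r)}

/-- There are constants `C`, `r₀` such that for all positive integers `D`, `w`, with
`r = D * w ^ 2`: the number of coprime solutions is at most `C * (5/3) ^ n`, and at most
`(10/3) ^ n / 2` if `r ≥ r₀`, for some `n` such that the group of rational points of the curve has
`n` elements which are linearly independent over `ℤ`. So for `r ≥ r₀` there is at most one coprime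
solution if there are no two independent points. -/
theorem result : ∃ (C : ℝ) (r₀ : ℕ), ∀ D w : ℕ, 0 < D → 0 < w → (sol (D * w ^ 2)).Finite ∧
    (∃ (n : ℕ) (P : Fin n → (curve D).toAffine.Point), LinearIndependent ℤ P ∧
      ((sol (D * w ^ 2)).ncard : ℝ) ≤ C * (5 / 3) ^ n ∧
      (r₀ ≤ D * w ^ 2 → ((sol (D * w ^ 2)).ncard : ℝ) ≤ (10 / 3) ^ n / 2)) ∧
    (r₀ ≤ D * w ^ 2 → (∀ P : Fin 2 → (curve D).toAffine.Point, ¬ LinearIndependent ℤ P) →
      (sol (D * w ^ 2)).ncard ≤ 1) := by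
  have hsol : ∀ r : ℕ, sol r ⊆ primSol r := by
    rintro r p ⟨h1, h2, h3, h4⟩
    refine ⟨h1, h2, h3, ?_⟩
    have : (p.1 : ℤ) ^ 4 = (p.2 : ℤ) ^ 4 + r := by linarith
    exact_mod_cast this
  have hpfin : ∀ r : ℕ, 0 < r → (primSol r).Finite := fun r hr =>
    (finite_of_subset hr (fun p hp => hp.2.2.2)).1
  obtain ⟨C, hC⟩ := coprime_bound'
  obtain ⟨r₁, h₁⟩ := coprime_bound
  obtain ⟨r₂, h₂⟩ := rank_one
  refine ⟨max C 1, max r₁ r₂, fun D w hD hw => ?_⟩
  have hr0 : 0 < D * w ^ 2 := by positivity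
  have hfin := (hpfin _ hr0).subset (hsol (D * w ^ 2))
  have hcard : (sol (D * w ^ 2)).ncard ≤ (primSol (D * w ^ 2)).ncard :=
    Set.ncard_le_ncard (hsol _) (hpfin _ hr0)
  have hcard' : ((sol (D * w ^ 2)).ncard : ℝ) ≤ ((primSol (D * w ^ 2)).ncard : ℝ) := by
    exact_mod_cast hcard
  have hC0 : (0 : ℝ) ≤ max C 1 := le_trans zero_le_one (le_max_right _ _)
  refine ⟨hfin, ?_, fun hr h => hcard.trans (h₂ D w hD ((le_max_right _ _).trans hr) h)⟩
  obtain ⟨n, P, hP, hn⟩ := hC D w hD hw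
  have hn' : ((sol (D * w ^ 2)).ncard : ℝ) ≤ max C 1 * (5 / 3) ^ n :=
    (hcard'.trans hn).trans (by gcongr; exact le_max_left _ _)
  by_cases hr : r₁ ≤ D * w ^ 2
  · obtain ⟨m, Q, hQ, hm⟩ := h₁ D w hD hr
    have hm' : ((sol (D * w ^ 2)).ncard : ℝ) ≤ (10 / 3) ^ m / 2 := by linarith
    rcases le_total n m with h | h
    · refine ⟨m, Q, hQ, hn'.trans ?_, fun _ => hm'⟩
      gcongr
      norm_num
    · refine ⟨n, P, hP, hn', fun _ => hm'.trans ?_⟩
      gcongr
      norm_num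
  · exact ⟨n, P, hP, hn', fun h => absurd ((le_max_left _ _).trans h) hr⟩

end Pool.Agent.Results.MP_7dc427_nt.CoprimeRank
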