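import Pool.Agent.Lib_helper21.RB.Main2

/-!
# MP_7dc427_nt: representations as a difference of two fourth powers

Bounds for the number of solutions of `x ^ 4 - y ^ 4 = r` in terms of the rank of the elliptic curve
`Y ^ 2 = X ^ 3 - D ^ 2 * X` only, where `D` is the squarefree part of `r`.
-/

set_option autoImplicit false

namespace Pool.Agent.Results.MP_7dc427_nt.RankBound

open Pool.Agent.RB

/-- The curve `Y ^ 2 = X ^ 3 - D ^ 2 * X` over the rational numbers. -/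
noncomputable def curve (D : ℕ) : WeierstrassCurve ℚ := ⟨0, 0, 0, -(D : ℚ) ^ 2, 0⟩

/-- The set `S` is finite and has at most `B n` elements for some `n` which is at most the rank of
the group of rational points of `curve D`: there are `n` points linearly independent over `ℤ`. -/
def RankBdd (D : ℕ) (S : Set (ℕ × ℕ)) (B : ℕ → ℝ) : Prop :=
  S.Finite ∧ ∃ (n : ℕ) (P : Fin n → (curve D).toAffine.Point),
    LinearIndependent ℤ P ∧ (S.ncard : ℝ) ≤ B n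

/-- The pairs of positive integers with `x ^ 4 - y ^ 4 = r`. -/
def sol (r : ℕ) : Set (ℕ × ℕ) := {p | 0 < p.1 ∧ 0 < p.2 ∧ ((p.1 : ℤ) ^ 4 - (p.2 : ℤ) ^ 4 = r)}

/-- Every positive integer is `r = k * F ^ 4`, `k = D * E ^ 2` with `D`, `E` squarefree; `k` is its
fourth-power-free part and `D` its squarefree part.
For every `δ > 0` the number of the solutions with `gcd ^ 4 ≤ r ^ (1 - δ)` or
`r / gcd ^ 4 ≤ k ^ (1 / δ)` is at most `C ^ (rank + 1)`. In particular, if `k ≥ r ^ δ` then the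
number of all solutions is at most `C ^ (rank + 1)`. -/
theorem result :
    (∀ δ : ℝ, 0 < δ → δ ≤ 1 → ∃ C : ℝ, 1 ≤ C ∧ ∀ D E F k r : ℕ, Squarefree D → Squarefree E →
      0 < F → k = D * E ^ 2 → r = k * F ^ 4 →
      RankBdd D {p | p ∈ sol r ∧ (((Nat.gcd p.1 p.2 : ℕ) : ℝ) ^ 4 ≤ (r : ℝ) ^ (1 - δ) ∨
        (r : ℝ) / ((Nat.gcd p.1 p.2 : ℕ) : ℝ) ^ 4 ≤ (k : ℝ) ^ (1 / δ))} (fun n => C ^ (n + 1)))
      ∧
    (∀ δ : ℝ, 0 < δ → δ ≤ 1 → ∃ C : ℝ, 1 ≤ C ∧ ∀ D E F k r : ℕ, Squarefree D → Squarefree E →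
      0 < F → k = D * E ^ 2 → r = k * F ^ 4 → (r : ℝ) ^ δ ≤ k →
      RankBdd D (sol r) (fun n => C ^ (n + 1))) := by
  have hsol : ∀ (r : ℕ) (p : ℕ × ℕ), p ∈ sol r → 0 < p.1 ∧ 0 < p.2 ∧ p.1 ^ 4 = p.2 ^ 4 + r := by
    rintro r p ⟨h1, h2, h3⟩
    refine ⟨h1, h2, ?_⟩
    have : (p.1 : ℤ) ^ 4 = (p.2 : ℤ) ^ 4 + r := by linarith
    exact_mod_cast this
  have hfin : ∀ r : ℕ, 0 < r → (sol r).Finite := fun r hr =>
    (finite_of_subset hr (fun p hp => (hsol r p hp).2.2)).1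
  have part3 : ∀ δ : ℝ, 0 < δ → δ ≤ 1 → ∃ C : ℝ, 1 ≤ C ∧ ∀ D E F k r : ℕ, Squarefree D →
      Squarefree E → 0 < F → k = D * E ^ 2 → r = k * F ^ 4 →
      RankBdd D {p | p ∈ sol r ∧ (((Nat.gcd p.1 p.2 : ℕ) : ℝ) ^ 4 ≤ (r : ℝ) ^ (1 - δ) ∨
        (r : ℝ) / ((Nat.gcd p.1 p.2 : ℕ) : ℝ) ^ 4 ≤ (k : ℝ) ^ (1 / δ))}
        (fun n => C ^ (n + 1)) := by
    intro δ hδ hδ1
    obtain ⟨C₁, h₁⟩ := big_bound δ hδ
    obtain ⟨C₂, h₂⟩ := small_bound (1 / δ) (by rw [le_div_iff₀ hδ]; linarith)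
    refine ⟨|C₁| + |C₂| + 1, by
      have := abs_nonneg C₁
      have := abs_nonneg C₂
      linarith, fun D E F k r hD hE hF hk hr => ?_⟩
    have hD0 : 0 < D := Nat.pos_of_ne_zero hD.ne_zero
    have hE0 : 0 < E := Nat.pos_of_ne_zero hE.ne_zero
    have hrw : r = D * (E * F ^ 2) ^ 2 := by rw [hr, hk]; ring
    have hr0 : 0 < r := by rw [hrw]; positivity
    refine ⟨(hfin r hr0).subset fun p hp => hp.1, ?_⟩
    obtain ⟨n₁, P₁, i₁, b₁⟩ := h₁ D (E * F ^ 2) hD (by positivity)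
    obtain ⟨n₂, P₂, i₂, b₂⟩ := h₂ D E F hD hE hF
    rw [← hrw] at b₁
    rw [← hk, ← hr] at b₂
    have f1 : (bigSol δ r).Finite := (finite_of_subset hr0 (fun p hp => hp.2.2.1)).1
    have f2 : (smallSol (1 / δ) k r).Finite := (finite_of_subset hr0 (fun p hp => hp.2.2.1)).1
    have hsub : {p | p ∈ sol r ∧ (((Nat.gcd p.1 p.2 : ℕ) : ℝ) ^ 4 ≤ (r : ℝ) ^ (1 - δ) ∨
        (r : ℝ) / ((Nat.gcd p.1 p.2 : ℕ) : ℝ) ^ 4 ≤ (k : ℝ) ^ (1 / δ))} ⊆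
        bigSol δ r ∪ smallSol (1 / δ) k r := by
      rintro p ⟨hp, h | h⟩
      · obtain ⟨h1, h2, h3⟩ := hsol r p hp
        exact Or.inl ⟨h1, h2, h3, h⟩
      · obtain ⟨h1, h2, h3⟩ := hsol r p hp
        refine Or.inr ⟨h1, h2, h3, ?_⟩
        have hg : (0 : ℝ) < ((Nat.gcd p.1 p.2 : ℕ) : ℝ) ^ 4 := by
          have : 0 < Nat.gcd p.1 p.2 := Nat.gcd_pos_of_pos_left _ h1
          positivity
        rwa [div_le_iff₀ hg] at h
    have hcard := (Set.ncard_le_ncard hsub (f1.union f2)).trans (Set.ncard_union_le _ _)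
    have hcard' : (({p | p ∈ sol r ∧ (((Nat.gcd p.1 p.2 : ℕ) : ℝ) ^ 4 ≤ (r : ℝ) ^ (1 - δ) ∨
        (r : ℝ) / ((Nat.gcd p.1 p.2 : ℕ) : ℝ) ^ 4 ≤ (k : ℝ) ^ (1 / δ))} :
        Set (ℕ × ℕ)).ncard : ℝ) ≤ C₁ ^ (n₁ + 1) + C₂ ^ (n₂ + 1) := by
      calc _ ≤ (((bigSol δ r).ncard + (smallSol (1 / δ) k r).ncard : ℕ) : ℝ) := by
            exact_mod_cast hcard
        _ ≤ _ := by push_cast; exact add_le_add b₁ b₂
    have a1 := abs_nonneg C₁
    have a2 := abs_nonneg C₂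
    have key : ∀ n, n₁ ≤ n → n₂ ≤ n →
        C₁ ^ (n₁ + 1) + C₂ ^ (n₂ + 1) ≤ (|C₁| + |C₂| + 1) ^ (n + 1) := by
      intro n h1 h2
      have e1 : C₁ ^ (n₁ + 1) ≤ |C₁| * (|C₁| + |C₂| + 1) ^ n := by
        calc C₁ ^ (n₁ + 1) ≤ |C₁ ^ (n₁ + 1)| := le_abs_self _
          _ = |C₁| * |C₁| ^ n₁ := by rw [abs_pow, pow_succ]; ring
          _ ≤ |C₁| * (|C₁| + |C₂| + 1) ^ n₁ := by
              gcongr
              linarith
          _ ≤ |C₁| * (|C₁| + |C₂| + 1) ^ n := by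
              gcongr
              linarith
      have e2 : C₂ ^ (n₂ + 1) ≤ |C₂| * (|C₁| + |C₂| + 1) ^ n := by
        calc C₂ ^ (n₂ + 1) ≤ |C₂ ^ (n₂ + 1)| := le_abs_self _
          _ = |C₂| * |C₂| ^ n₂ := by rw [abs_pow, pow_succ]; ring
          _ ≤ |C₂| * (|C₁| + |C₂| + 1) ^ n₂ := by
              gcongr
              linarith
          _ ≤ |C₂| * (|C₁| + |C₂| + 1) ^ n := by
              gcongr
              linarith
      have e3 : 0 ≤ (|C₁| + |C₂| + 1) ^ n := by positivity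
      calc _ ≤ (|C₁| + |C₂|) * (|C₁| + |C₂| + 1) ^ n := by rw [add_mul]; exact add_le_add e1 e2
        _ ≤ (|C₁| + |C₂| + 1) * (|C₁| + |C₂| + 1) ^ n :=
            mul_le_mul_of_nonneg_right (by linarith) e3
        _ = _ := by ring
    rcases le_total n₁ n₂ with hn | hn
    · exact ⟨n₂, P₂, i₂, hcard'.trans (key n₂ hn le_rfl)⟩
    · exact ⟨n₁, P₁, i₁, hcard'.trans (key n₁ le_rfl hn)⟩
  refine ⟨part3, ?_⟩
  · intro δ hδ hδ1
    obtain ⟨C, hC, h⟩ := part3 δ hδ hδ1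
    refine ⟨C, hC, fun D E F k r hD hE hF hk hr hkr => ?_⟩
    have hD0 : 0 < D := Nat.pos_of_ne_zero hD.ne_zero
    have hE0 : 0 < E := Nat.pos_of_ne_zero hE.ne_zero
    have hr0 : 0 < r := by rw [hr, hk]; positivity
    have hall : {p | p ∈ sol r ∧ (((Nat.gcd p.1 p.2 : ℕ) : ℝ) ^ 4 ≤ (r : ℝ) ^ (1 - δ) ∨
        (r : ℝ) / ((Nat.gcd p.1 p.2 : ℕ) : ℝ) ^ 4 ≤ (k : ℝ) ^ (1 / δ))} = sol r := by
      apply Set.Subset.antisymm (fun p hp => hp.1)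
      intro p hp
      refine ⟨hp, Or.inr ?_⟩
      have hg : (1 : ℝ) ≤ ((Nat.gcd p.1 p.2 : ℕ) : ℝ) ^ 4 := by
        have : 0 < Nat.gcd p.1 p.2 := Nat.gcd_pos_of_pos_left _ hp.1
        apply one_le_pow₀
        exact_mod_cast this
      calc (r : ℝ) / ((Nat.gcd p.1 p.2 : ℕ) : ℝ) ^ 4 ≤ r := div_le_self (Nat.cast_nonneg _) hg
        _ = ((r : ℝ) ^ δ) ^ (1 / δ) := by
            rw [← Real.rpow_mul (Nat.cast_nonneg _), mul_one_div_cancel hδ.ne', Real.rpow_one]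
        _ ≤ (k : ℝ) ^ (1 / δ) :=
            Real.rpow_le_rpow (by positivity) hkr (by positivity)
    have := h D E F k r hD hE hF hk hr
    rwa [hall] at this

end Pool.Agent.Results.MP_7dc427_nt.RankBound
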