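import Pool.Agent.Lib_helper21.FP.Count

/-!
# MP_7dc427_nt: representations as a difference of two fourth powers

A bound for the number of solutions of `x ^ 4 - y ^ 4 = r` in terms of a unitary divisor of `r`
which exceeds `r ^ (1/3 + ε)`.
-/

set_option autoImplicit false

namespace Pool.Agent.Results.MP_7dc427_nt.UnitaryDivisor

open Pool.Agent.FP

/-- the first part: solutions whose greatest common divisor is prime to `g q` -/
theorem part_one (ε : ℝ) (hε : 0 < ε) : ∃ C : ℕ, ∀ r g q : ℕ, 0 < r → g ∣ r → q ∣ r →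
    Nat.Coprime g (r / g) → Nat.Coprime q (r / q) → Nat.Coprime g q →
    (∀ p : ℕ, p.Prime → p ∣ q → p % 4 = 3) → (r : ℝ) ^ (1 + ε) ≤ (g : ℝ) ^ 3 * q →
      {P : ℕ × ℕ | 0 < P.1 ∧ 0 < P.2 ∧ ((P.1 : ℤ) ^ 4 - (P.2 : ℤ) ^ 4 = r) ∧
        Nat.Coprime (Nat.gcd P.1 P.2) (g * q)}.encard ≤
        ((C * ∏ p ∈ g.primeFactors, Nat.gcd 4 (p - 1) : ℕ) : ℕ∞) := by
  set ε' : ℝ := min ε 1 with hε'
  have h0 : 0 < ε' := lt_min hε one_pos
  have h1 : ε' ≤ 1 := min_le_right _ _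
  have hle : ε' ≤ ε := min_le_left _ _
  set R₀ : ℕ := ⌈Real.exp (12 * Real.log 4 / ε')⌉₊ with hR₀
  refine ⟨⌊12 / ε'⌋₊ * (2 * (⌊12 / ε'⌋₊ + 1)) + (2 * R₀ + 1) ^ 2, ?_⟩
  intro r g q hr hg hq hgu hqu hgq hq3 hbig
  set A : Set (ℕ × ℕ) := {P : ℕ × ℕ | 0 < P.1 ∧ 0 < P.2 ∧ ((P.1 : ℤ) ^ 4 - (P.2 : ℤ) ^ 4 = r) ∧
        Nat.Coprime (Nat.gcd P.1 P.2) (g * q)} with hA
  have hr' : (0 : ℝ) < r := by exact_mod_cast hr
  have hr1 : (1 : ℝ) ≤ r := by exact_mod_cast hr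
  have hg0 : g ≠ 0 := by rintro rfl; rw [Nat.zero_dvd] at hg; omega
  have hq0 : q ≠ 0 := by rintro rfl; rw [Nat.zero_dvd] at hq; omega
  have hg' : (0 : ℝ) < g := by exact_mod_cast Nat.pos_of_ne_zero hg0
  have hq' : (0 : ℝ) < q := by exact_mod_cast Nat.pos_of_ne_zero hq0
  have hsol : ∀ P ∈ A, IsSol r P := by
    intro P hP
    obtain ⟨a, b, c, -⟩ := hP
    refine ⟨a, b, ?_⟩
    have : (P.1 : ℤ) ^ 4 = (P.2 : ℤ) ^ 4 + r := by linarith
    exact_mod_cast this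
  have hsub : A ⊆ ((Finset.range (2 * r + 1) ×ˢ Finset.range (2 * r + 1) : Finset (ℕ × ℕ)) :
      Set (ℕ × ℕ)) := by
    intro P hP
    have h2 := sol_size hr (hsol P hP)
    have h3 : Real.sqrt r ≤ r := by
      rw [Real.sqrt_le_left hr'.le]
      nlinarith
    have h4 : ((P.1 + P.2 : ℕ) : ℝ) ≤ ((2 * r : ℕ) : ℝ) := by
      push_cast
      linarith
    have h5 : P.1 + P.2 ≤ 2 * r := by exact_mod_cast h4
    rw [Finset.mem_coe, Finset.mem_product, Finset.mem_range, Finset.mem_range]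
    omega
  have hfin : A.Finite := Set.Finite.subset (Finset.finite_toSet _) hsub
  have hprod : 1 ≤ ∏ p ∈ g.primeFactors, Nat.gcd 4 (p - 1) := by
    apply Nat.one_le_iff_ne_zero.mpr
    exact Finset.prod_ne_zero_iff.mpr fun p _ => (Nat.gcd_pos_of_pos_left _ (by norm_num)).ne'
  rw [hfin.encard_eq_coe_toFinset_card]
  apply Nat.cast_le.mpr
  set S := hfin.toFinset with hS
  have hSA : ∀ P ∈ S, P ∈ A := fun P hP => by rwa [hS, Set.Finite.mem_toFinset] at hP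
  set W := ∏ p ∈ g.primeFactors, Nat.gcd 4 (p - 1) with hW
  by_cases hb : 12 * Real.log 4 < ε' * Real.log r
  · have hgq' : (1 + ε') * Real.log r ≤ 3 * Real.log g + Real.log q := by
      have h2 := Real.log_le_log (by positivity) hbig
      rw [Real.log_rpow hr', Real.log_mul (by positivity) hq'.ne', Real.log_pow] at h2
      push_cast at h2
      have h3 : 0 ≤ Real.log r := Real.log_nonneg hr1
      nlinarith
    have h2 := main_count h0 h1 ⟨hr, hg, hgu, hq, hqu, hgq, hq3⟩ hb hgq' S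
      (fun P hP => hsol P (hSA P hP)) (fun P hP => (hSA P hP).2.2.2)
    calc S.card ≤ ⌊12 / ε'⌋₊ * (2 * W * (⌊12 / ε'⌋₊ + 1)) := h2
      _ = (⌊12 / ε'⌋₊ * (2 * (⌊12 / ε'⌋₊ + 1))) * W := by ring
      _ ≤ (⌊12 / ε'⌋₊ * (2 * (⌊12 / ε'⌋₊ + 1)) + (2 * R₀ + 1) ^ 2) * W :=
          Nat.mul_le_mul_right _ (Nat.le_add_right _ _)
  · have h2 : r ≤ R₀ := by
      have h3 : Real.log r ≤ 12 * Real.log 4 / ε' := by
        rw [le_div_iff₀ h0, mul_comm]
        exact not_lt.mp hb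
      have h4 : (r : ℝ) ≤ Real.exp (12 * Real.log 4 / ε') := by
        rw [← Real.exp_log hr']
        exact Real.exp_le_exp.mpr h3
      exact_mod_cast h4.trans (Nat.le_ceil _)
    have h3 : S ⊆ (Finset.range (2 * r + 1) ×ˢ Finset.range (2 * r + 1) : Finset (ℕ × ℕ)) := by
      intro P hP
      have := hsub (hSA P hP)
      rwa [Finset.mem_coe] at this
    calc S.card ≤ (2 * r + 1) * (2 * r + 1) := by
          refine (Finset.card_le_card h3).trans ?_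
          rw [Finset.card_product, Finset.card_range]
      _ ≤ (2 * R₀ + 1) ^ 2 := by
          rw [sq]
          exact Nat.mul_le_mul (by omega) (by omega)
      _ ≤ (⌊12 / ε'⌋₊ * (2 * (⌊12 / ε'⌋₊ + 1)) + (2 * R₀ + 1) ^ 2) := Nat.le_add_left _ _
      _ = (⌊12 / ε'⌋₊ * (2 * (⌊12 / ε'⌋₊ + 1)) + (2 * R₀ + 1) ^ 2) * 1 := (mul_one _).symm
      _ ≤ (⌊12 / ε'⌋₊ * (2 * (⌊12 / ε'⌋₊ + 1)) + (2 * R₀ + 1) ^ 2) * W :=
          Nat.mul_le_mul_left _ hprod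

/-- For every `ε > 0` there is a constant `C` with the following property.  Let `r` be a positive
integer and let `g`, `q` be coprime unitary divisors of `r` with `g ^ 3 q ≥ r ^ (1 + ε)`, all prime
divisors of `q` being `3 mod 4`.  Then the number of pairs of positive integers `(x, y)` with
`x ^ 4 - y ^ 4 = r` and `gcd (gcd (x, y), g q) = 1` is at most `C ∏_{p ∣ g} gcd (4, p - 1)`; if no
fourth power of a prime divides `g q`, then this is a bound for the number of all pairs of positive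
integers `(x, y)` with `x ^ 4 - y ^ 4 = r`. -/
theorem result : ∀ ε : ℝ, 0 < ε → ∃ C : ℕ, ∀ r g q : ℕ, 0 < r → g ∣ r → q ∣ r →
    Nat.Coprime g (r / g) → Nat.Coprime q (r / q) → Nat.Coprime g q →
    (∀ p : ℕ, p.Prime → p ∣ q → p % 4 = 3) → (r : ℝ) ^ (1 + ε) ≤ (g : ℝ) ^ 3 * q →
      {P : ℕ × ℕ | 0 < P.1 ∧ 0 < P.2 ∧ ((P.1 : ℤ) ^ 4 - (P.2 : ℤ) ^ 4 = r) ∧
        Nat.Coprime (Nat.gcd P.1 P.2) (g * q)}.encard ≤
        ((C * ∏ p ∈ g.primeFactors, Nat.gcd 4 (p - 1) : ℕ) : ℕ∞) ∧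
      ((∀ p : ℕ, p.Prime → ¬ p ^ 4 ∣ g * q) →
        {P : ℕ × ℕ | 0 < P.1 ∧ 0 < P.2 ∧ ((P.1 : ℤ) ^ 4 - (P.2 : ℤ) ^ 4 = r)}.encard ≤
          ((C * ∏ p ∈ g.primeFactors, Nat.gcd 4 (p - 1) : ℕ) : ℕ∞)) := by
  intro ε hε
  obtain ⟨C, h⟩ := part_one ε hε
  refine ⟨C, fun r g q hr hg hq hgu hqu hgq hq3 hbig => ?_⟩
  have h1 := h r g q hr hg hq hgu hqu hgq hq3 hbig
  refine ⟨h1, fun h4 => le_trans (Set.encard_le_encard ?_) h1⟩
  rintro P ⟨hx, hy, hP⟩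
  refine ⟨hx, hy, hP, ?_⟩
  have hsol : IsSol r P := by
    refine ⟨hx, hy, ?_⟩
    have : (P.1 : ℤ) ^ 4 = (P.2 : ℤ) ^ 4 + r := by linarith
    exact_mod_cast this
  apply Nat.Coprime.symm
  apply Nat.Coprime.symm
  by_contra hc
  obtain ⟨p, hp, hd1, hd2⟩ := Nat.Prime.not_coprime_iff_dvd.mp hc
  have hj : 1 ≤ jv p P := by
    have hne : Nat.gcd P.1 P.2 ≠ 0 := (Nat.gcd_pos_of_pos_left _ hx).ne'
    exact hp.factorization_pos_of_dvd hne hd1
  have h5 := four_jv_le hr hp hsol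
  have hg0 : g ≠ 0 := by rintro rfl; rw [Nat.zero_dvd] at hg; omega
  have hq0 : q ≠ 0 := by rintro rfl; rw [Nat.zero_dvd] at hq; omega
  apply h4 p hp
  rcases (hp.dvd_mul).mp hd2 with hd | hd
  · have h6 := unitary_fact hr hg hgu hp hd
    exact Dvd.dvd.mul_right ((hp.pow_dvd_iff_le_factorization hg0).mpr (by omega)) q
  · have h6 := unitary_fact hr hq hqu hp hd
    exact Dvd.dvd.mul_left ((hp.pow_dvd_iff_le_factorization hq0).mpr (by omega)) g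

end Pool.Agent.Results.MP_7dc427_nt.UnitaryDivisor
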